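import Pool.Agent.X316.DQ.Bound

/-!
# MP_cd75ba_ag, Q1: the least threshold for conics on six-term diagonal hypersurfaces is 15

Over `ℂ` let `F_d = x_1^d + x_2^d + x_3^d - x_4^d - x_5^d - x_6^d` and `X_d = {F_d = 0} ⊂ ℙ⁵`.
We prove `d_0 = 15`:

* for every `d ≥ 15` every (smooth) conic contained in `X_d` is degenerate;
* `X_14` contains a nondegenerate conic.
-/

open Polynomial

namespace Pool.Agent.Results.MP_cd75ba_ag.LeastThresholdFifteen

/-- The diagonal form `F_d` in six variables. -/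
def F (d : ℕ) (x : Fin 6 → ℂ) : ℂ :=
  x 0 ^ d + x 1 ^ d + x 2 ^ d - x 3 ^ d - x 4 ^ d - x 5 ^ d

/-- A (smooth) conic in `ℙ⁵`: a plane of `ℙ⁵`, i.e. a three dimensional subspace of `ℂ⁶`,
together with a nondegenerate quadratic form on it. -/
structure Conic where
  /-- the plane spanned by the conic -/
  plane : Submodule ℂ (Fin 6 → ℂ)
  finrank_plane : Module.finrank ℂ plane = 3
  /-- the equation of the conic in its plane -/
  form : QuadraticForm ℂ plane
  nondegenerate : ∀ v : plane, (∀ w : plane, QuadraticMap.polar form v w = 0) → v = 0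

/-- The affine cone over the conic: the vectors of the plane at which the form vanishes. The
points of the conic are the lines of `ℂ⁶` contained in it. -/
def Conic.cone (C : Conic) : Set (Fin 6 → ℂ) :=
  {x | ∃ v : C.plane, C.form v = 0 ∧ (v : Fin 6 → ℂ) = x}

/-- The conic is contained in `X_d`. -/
def Conic.ContainedIn (C : Conic) (d : ℕ) : Prop := ∀ x ∈ C.cone, F d x = 0

/-- The conic is degenerate: for some `i ≠ j` and some `(a : b) ∈ ℙ¹` the form `a x_i - b x_j`
vanishes identically on it. -/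
def Conic.Degenerate (C : Conic) : Prop :=
  ∃ i j : Fin 6, i ≠ j ∧ ∃ a b : ℂ, (a ≠ 0 ∨ b ≠ 0) ∧ ∀ x ∈ C.cone, a * x i - b * x j = 0

/-- on nondegenerate conics: a parametrisation by quadratic forms -/
theorem conic_param (C : Conic) : ∃ A B D : Fin 6 → ℂ,
    (∀ s t : ℂ, (fun i => A i * s ^ 2 + B i * (s * t) + D i * t ^ 2) ∈ C.cone) ∧
    (∀ i j : Fin 6, ∀ a b : ℂ, a * A i = b * A j → a * B i = b * B j → a * D i = b * D j →
      ∀ x ∈ C.cone, a * x i - b * x j = 0) := by
  have hsep : (QuadraticMap.associated (R := ℂ) C.form).SeparatingLeft := by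
    intro v hv
    apply C.nondegenerate v
    intro w
    have h := hv w
    rw [QuadraticMap.associated_apply] at h
    have h2 : (⅟2 : ℂ) ≠ 0 := by
      rw [invOf_eq_inv]
      norm_num
    rw [QuadraticMap.polar]
    simpa [h2] using h
  obtain ⟨e⟩ := QuadraticForm.equivalent_weightedSumSquares_of_isAlgClosed C.form hsep
  have h3 := C.finrank_plane
  have key : ∃ f : C.plane ≃ₗ[ℂ] (Fin 3 → ℂ), ∀ v, C.form v = f v 0 ^ 2 + f v 1 ^ 2 + f v 2 ^ 2 := by
    have e' : ∃ f : C.plane ≃ₗ[ℂ] (Fin (Module.finrank ℂ C.plane) → ℂ),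
        ∀ v, C.form v = ∑ i, f v i ^ 2 := by
      refine ⟨e.toLinearEquiv, fun v => ?_⟩
      have h := e.map_app v
      rw [← h, QuadraticMap.weightedSumSquares_apply]
      refine Finset.sum_congr rfl fun i _ => ?_
      simp [sq]
    rw [h3] at e'
    obtain ⟨f, hf⟩ := e'
    refine ⟨f, fun v => ?_⟩
    rw [hf v, Fin.sum_univ_three]
  obtain ⟨f, hf⟩ := key
  let g : (Fin 3 → ℂ) →ₗ[ℂ] (Fin 6 → ℂ) := C.plane.subtype ∘ₗ f.symm.toLinearMap
  let M : Fin 3 → Fin 6 → ℂ := fun k => g (Pi.single k 1)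
  have hg : ∀ v i, g v i = v 0 * M 0 i + v 1 * M 1 i + v 2 * M 2 i := by
    intro v i
    have hv : v = v 0 • (Pi.single 0 1 : Fin 3 → ℂ) + v 1 • (Pi.single 1 1 : Fin 3 → ℂ)
        + v 2 • (Pi.single 2 1 : Fin 3 → ℂ) := by
      funext k
      fin_cases k <;> simp
    conv_lhs => rw [hv]
    simp [M]
  have hcone : ∀ v : Fin 3 → ℂ, v 0 ^ 2 + v 1 ^ 2 + v 2 ^ 2 = 0 → g v ∈ C.cone := by
    intro v hv
    refine ⟨f.symm v, ?_, rfl⟩
    rw [hf, f.apply_symm_apply]
    exact hv
  refine ⟨fun i => M 0 i + Complex.I * M 2 i, fun i => 2 * M 1 i,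
    fun i => - M 0 i + Complex.I * M 2 i, ?_, ?_⟩
  · intro s t
    have h := hcone ![s ^ 2 - t ^ 2, 2 * s * t, Complex.I * (s ^ 2 + t ^ 2)] (by
      simp only [Matrix.cons_val_zero, Matrix.cons_val_one, Matrix.cons_val]
      linear_combination (s ^ 2 + t ^ 2) ^ 2 * Complex.I_sq)
    convert h using 1
    funext i
    rw [hg]
    simp only [Matrix.cons_val_zero, Matrix.cons_val_one, Matrix.cons_val]
    ring
  · intro i j a b h1 h2 h3 x hx
    obtain ⟨v, -, rfl⟩ := hx
    have hv : (v : Fin 6 → ℂ) = g (f v) := by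
      simp [g]
    rw [hv, hg, hg]
    have e0 : a * M 0 i = b * M 0 j := by linear_combination (h1 - h3) / 2
    have e1 : a * M 1 i = b * M 1 j := by linear_combination h2 / 2
    have e2 : a * M 2 i = b * M 2 j := by
      have : Complex.I * (a * M 2 i - b * M 2 j) = 0 := by linear_combination (h1 + h3) / 2
      have := (mul_eq_zero.1 this).resolve_left Complex.I_ne_zero
      linear_combination this
    linear_combination (f v 0) * e0 + (f v 1) * e1 + (f v 2) * e2

theorem quad_coeff (a b c : ℂ) : (C a * X ^ 2 + C b * X + C c : ℂ[X]).coeff 0 = c ∧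
    (C a * X ^ 2 + C b * X + C c : ℂ[X]).coeff 1 = b ∧
    (C a * X ^ 2 + C b * X + C c : ℂ[X]).coeff 2 = a := by
  refine ⟨?_, ?_, ?_⟩ <;> simp [coeff_X, coeff_C]

theorem conic_upper (d : ℕ) (hd : 15 ≤ d) (K : Conic) (hC : K.ContainedIn d) :
    K.Degenerate := by
  by_contra hnd
  obtain ⟨A, B, D, h1, h2⟩ := conic_param K
  have hnd' : ∀ i j : Fin 6, i ≠ j → ∀ a b : ℂ, (a ≠ 0 ∨ b ≠ 0) →
      a * A i = b * A j → a * B i = b * B j → a * D i = b * D j → False := by
    intro i j hij a b hab e1 e2 e3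
    exact hnd ⟨i, j, hij, a, b, hab, h2 i j a b e1 e2 e3⟩
  -- choose the point at infinity
  have hne : ∀ i, (C (D i) * X ^ 2 + C (B i) * X + C (A i) : ℂ[X]) ≠ 0 := by
    intro i h
    obtain ⟨j, hj⟩ : ∃ j : Fin 6, j ≠ i := exists_ne i
    have c0 := congrArg (fun q => coeff q 0) h
    have c1 := congrArg (fun q => coeff q 1) h
    have c2 := congrArg (fun q => coeff q 2) h
    simp [coeff_X, coeff_C] at c0 c1 c2
    exact hnd' i j hj.symm 1 0 (Or.inl one_ne_zero) (by simp [c0]) (by simp [c1]) (by simp [c2])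
  obtain ⟨c, hc⟩ : ∃ c : ℂ, ∀ i, A i + B i * c + D i * c ^ 2 ≠ 0 := by
    have hprod : (∏ i, (C (D i) * X ^ 2 + C (B i) * X + C (A i) : ℂ[X])) ≠ 0 :=
      Finset.prod_ne_zero_iff.2 fun i _ => hne i
    obtain ⟨c, hc⟩ : ∃ c : ℂ, (∏ i, (C (D i) * X ^ 2 + C (B i) * X + C (A i) : ℂ[X])).eval c ≠ 0 := by
      by_contra hcon
      push Not at hcon
      exact hprod (Polynomial.funext fun x => by rw [hcon x, eval_zero])
    refine ⟨c, fun i hi => hc ?_⟩
    rw [eval_prod]
    refine Finset.prod_eq_zero (Finset.mem_univ i) ?_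
    simp
    linear_combination hi
  let p : Fin 6 → ℂ[X] := fun i => C (A i + B i * c + D i * c ^ 2) * X ^ 2 +
    C (B i + 2 * c * D i) * X + C (D i)
  have hp : ∀ i, (p i).natDegree = 2 := fun i => natDegree_quadratic (hc i)
  have hprop : ∀ i j, i ≠ j → ∀ a : ℂ, p i ≠ C a * p j := by
    intro i j hij a h
    have c0 := congrArg (fun q => coeff q 0) h
    have c1 := congrArg (fun q => coeff q 1) h
    have c2 := congrArg (fun q => coeff q 2) h
    simp only [p, coeff_C_mul, quad_coeff] at c0 c1 c2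
    refine hnd' i j hij 1 a (Or.inl one_ne_zero) ?_ ?_ ?_
    · linear_combination c2 - c * c1 + c ^ 2 * c0
    · linear_combination c1 - 2 * c * c0
    · linear_combination c0
  have hsum : ∑ i, C ((![1, 1, 1, -1, -1, -1] : Fin 6 → ℂ) i) * p i ^ d = 0 := by
    apply Polynomial.funext
    intro z
    have h := hC _ (h1 z (c * z + 1))
    rw [F] at h
    rw [eval_zero, ← h, eval_finsetSum, Fin.sum_univ_six]
    simp [p]
    ring
  have := Pool.Agent.X316.DQ.quadratic_bound p hp hprop ![1, 1, 1, -1, -1, -1]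
    (fun h => by have := congrFun h 0; simp at this) hsum
  omega

/-- the Laurent expansion of `(a + b + c)^14` when `a c = - b^2` -/
theorem key14 (a b c : ℂ) (h : a * c = - b ^ 2) :
    (a + b + c) ^ 14 = - 15625 * b ^ 14 + 6930 * b ^ 13 * (a + c)
      + 14105 * b ^ 12 * (a ^ 2 + c ^ 2) - 3640 * b ^ 11 * (a ^ 3 + c ^ 3)
      - 10010 * b ^ 10 * (a ^ 4 + c ^ 4) + 5005 * b ^ 8 * (a ^ 6 + c ^ 6)
      + 1430 * b ^ 7 * (a ^ 7 + c ^ 7) - 1365 * b ^ 6 * (a ^ 8 + c ^ 8)
      - 910 * b ^ 5 * (a ^ 9 + c ^ 9) + 182 * b ^ 3 * (a ^ 11 + c ^ 11)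
      + 77 * b ^ 2 * (a ^ 12 + c ^ 12) + 14 * b * (a ^ 13 + c ^ 13) + (a ^ 14 + c ^ 14) := by
  obtain ⟨s, hs⟩ : ∃ s, s = a + c := ⟨_, rfl⟩
  have step : ∀ n : ℕ, a ^ (n + 2) + c ^ (n + 2) =
      s * (a ^ (n + 1) + c ^ (n + 1)) + b ^ 2 * (a ^ n + c ^ n) := by
    intro n
    rw [hs]
    linear_combination (- (a ^ n + c ^ n)) * h
  have l2 : a ^ 2 + c ^ 2 = s ^ 2 + 2 * b ^ 2 := by
    rw [step 0, hs]; ring
  have l3 : a ^ 3 + c ^ 3 = s * (s ^ 2 + 2 * b ^ 2) + b ^ 2 * s := by
    rw [step 1, l2, hs]; ring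
  have l4 := step 2
  rw [l2, l3] at l4
  have l5 := step 3
  rw [l3, l4] at l5
  have l6 := step 4
  rw [l4, l5] at l6
  have l7 := step 5
  rw [l5, l6] at l7
  have l8 := step 6
  rw [l6, l7] at l8
  have l9 := step 7
  rw [l7, l8] at l9
  have l10 := step 8
  rw [l8, l9] at l10
  have l11 := step 9
  rw [l9, l10] at l11
  have l12 := step 10
  rw [l10, l11] at l12
  have l13 := step 11
  rw [l11, l12] at l13
  have l14 := step 12
  rw [l12, l13] at l14
  rw [l2, l3, l4, l6, l7, l8, l9, l11, l12, l13, l14, ← hs, show a + b + c = s + b by rw [hs]; ring]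
  ring

section lower

variable (z r m : ℂ)

/-- the six linear forms -/
def Lmap : (Fin 3 → ℂ) →ₗ[ℂ] (Fin 6 → ℂ) :=
  Matrix.toLin' !![1, 1, -1; z, 1, -z ^ 4; z ^ 2, 1, -z ^ 3; m * z ^ 3, m, -(m * z ^ 2);
    m * z ^ 4, m, -(m * z); 0, m * r, 0]

theorem Lmap_apply (v : Fin 3 → ℂ) : Lmap z r m v =
    ![v 0 + v 1 - v 2, z * v 0 + v 1 - z ^ 4 * v 2, z ^ 2 * v 0 + v 1 - z ^ 3 * v 2,
      m * (z ^ 3 * v 0 + v 1 - z ^ 2 * v 2), m * (z ^ 4 * v 0 + v 1 - z * v 2), m * (r * v 1)] := by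
  funext i
  fin_cases i <;> simp [Lmap, Matrix.toLin'_apply, Matrix.mulVec, dotProduct, Fin.sum_univ_three] <;> ring

theorem sum_pow_zero (hz : IsPrimitiveRoot z 5) (j : ℕ) (hj : j.Coprime 5) :
    1 + z ^ j + (z ^ 2) ^ j + (z ^ 3) ^ j + (z ^ 4) ^ j = 0 := by
  have h := (hz.pow_of_coprime j hj).geom_sum_eq_zero (by norm_num)
  rw [Finset.sum_range_succ, Finset.sum_range_succ, Finset.sum_range_succ, Finset.sum_range_succ,
    Finset.sum_range_one] at h
  rw [← h]
  ring

theorem identity14 (hz : IsPrimitiveRoot z 5) (hr : r ^ 2 = 5) (hm : m ^ 14 = -1)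
    (v : Fin 3 → ℂ) (hv : v 1 ^ 2 = v 0 * v 2) : F 14 (Lmap z r m v) = 0 := by
  have h5 : z ^ 5 = 1 := hz.pow_eq_one
  have e0 := key14 (v 0) (v 1) (-v 2) (by linear_combination hv)
  have e1 := key14 (z * v 0) (v 1) (-(z ^ 4 * v 2)) (by linear_combination hv - v 0 * v 2 * h5)
  have e2 := key14 (z ^ 2 * v 0) (v 1) (-(z ^ 3 * v 2)) (by linear_combination hv - v 0 * v 2 * h5)
  have e3 := key14 (z ^ 3 * v 0) (v 1) (-(z ^ 2 * v 2)) (by linear_combination hv - v 0 * v 2 * h5)
  have e4 := key14 (z ^ 4 * v 0) (v 1) (-(z * v 2)) (by linear_combination hv - v 0 * v 2 * h5)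
  have hr14 : r ^ 14 = 78125 := by
    rw [show r ^ 14 = (r ^ 2) ^ 7 by ring, hr]; norm_num
  have s1 := sum_pow_zero z hz 1 (by norm_num)
  have s2 := sum_pow_zero z hz 2 (by norm_num)
  have s3 := sum_pow_zero z hz 3 (by norm_num)
  have s4 := sum_pow_zero z hz 4 (by norm_num)
  have s6 := sum_pow_zero z hz 6 (by norm_num)
  have s7 := sum_pow_zero z hz 7 (by norm_num)
  have s8 := sum_pow_zero z hz 8 (by norm_num)
  have s9 := sum_pow_zero z hz 9 (by norm_num)
  have s11 := sum_pow_zero z hz 11 (by norm_num)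
  have s12 := sum_pow_zero z hz 12 (by norm_num)
  have s13 := sum_pow_zero z hz 13 (by norm_num)
  have s14 := sum_pow_zero z hz 14 (by norm_num)
  obtain ⟨x, hx⟩ : ∃ x, x = v 0 := ⟨_, rfl⟩
  obtain ⟨y, hy⟩ : ∃ y, y = v 1 := ⟨_, rfl⟩
  obtain ⟨w, hw⟩ : ∃ w, w = v 2 := ⟨_, rfl⟩
  rw [F, Lmap_apply]
  simp only [Matrix.cons_val_zero, Matrix.cons_val_one, Matrix.cons_val]
  rw [mul_pow m, mul_pow m, mul_pow m, mul_pow r, hm, hr14]
  rw [show v 0 + v 1 - v 2 = v 0 + v 1 + -v 2 by ring, e0,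
    show z * v 0 + v 1 - z ^ 4 * v 2 = z * v 0 + v 1 + -(z ^ 4 * v 2) by ring, e1,
    show z ^ 2 * v 0 + v 1 - z ^ 3 * v 2 = z ^ 2 * v 0 + v 1 + -(z ^ 3 * v 2) by ring, e2,
    show z ^ 3 * v 0 + v 1 - z ^ 2 * v 2 = z ^ 3 * v 0 + v 1 + -(z ^ 2 * v 2) by ring, e3,
    show z ^ 4 * v 0 + v 1 - z * v 2 = z ^ 4 * v 0 + v 1 + -(z * v 2) by ring, e4]
  rw [← hx, ← hy, ← hw]
  linear_combination 6930 * y ^ 13 * (x - w) * s1 + 14105 * y ^ 12 * (x ^ 2 + w ^ 2) * s2
      - 3640 * y ^ 11 * (x ^ 3 - w ^ 3) * s3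
      - 10010 * y ^ 10 * (x ^ 4 + w ^ 4) * s4 + 5005 * y ^ 8 * (x ^ 6 + w ^ 6) * s6
      + 1430 * y ^ 7 * (x ^ 7 - w ^ 7) * s7 - 1365 * y ^ 6 * (x ^ 8 + w ^ 8) * s8
      - 910 * y ^ 5 * (x ^ 9 - w ^ 9) * s9 + 182 * y ^ 3 * (x ^ 11 - w ^ 11) * s11
      + 77 * y ^ 2 * (x ^ 12 + w ^ 12) * s12 + 14 * y * (x ^ 13 - w ^ 13) * s13
      + (x ^ 14 + w ^ 14) * s14

end lower

/-- the conic `y^2 = x z` in the parametrised plane -/
noncomputable def stdForm : QuadraticForm ℂ (Fin 3 → ℂ) :=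
  QuadraticMap.linMulLin (LinearMap.proj 1) (LinearMap.proj 1) -
    QuadraticMap.linMulLin (LinearMap.proj 0) (LinearMap.proj 2)

theorem stdForm_apply (v : Fin 3 → ℂ) : stdForm v = v 1 * v 1 - v 0 * v 2 := rfl

theorem stdForm_nondeg (v : Fin 3 → ℂ) (h : ∀ w, QuadraticMap.polar stdForm v w = 0) : v = 0 := by
  have h0 := h ![1, 0, 0]
  have h1 := h ![0, 1, 0]
  have h2 := h ![0, 0, 1]
  simp only [QuadraticMap.polar, stdForm_apply, Pi.add_apply, Matrix.cons_val_zero,
    Matrix.cons_val_one, Matrix.cons_val] at h0 h1 h2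
  funext i
  fin_cases i
  · show v 0 = 0
    linear_combination -h2
  · show v 1 = 0
    linear_combination h1 / 2
  · show v 2 = 0
    linear_combination -h0

theorem exists_conic14 : ∃ K : Conic, K.ContainedIn 14 ∧ ¬ K.Degenerate := by
  obtain ⟨z, hz⟩ : ∃ z : ℂ, IsPrimitiveRoot z 5 := ⟨_, Complex.isPrimitiveRoot_exp 5 (by norm_num)⟩
  obtain ⟨r, hr⟩ : ∃ r : ℂ, r ^ 2 = 5 := IsAlgClosed.exists_pow_nat_eq 5 (by norm_num)
  obtain ⟨m, hm⟩ : ∃ m : ℂ, m ^ 14 = -1 := IsAlgClosed.exists_pow_nat_eq (-1) (by norm_num)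
  have hr0 : r ≠ 0 := by rintro rfl; norm_num at hr
  have hm0 : m ≠ 0 := by rintro rfl; norm_num at hm
  have hz0 : z ≠ 0 := hz.ne_zero (by norm_num)
  have hzz : ∀ i j : ℕ, i < 5 → j < 5 → i ≠ j → z ^ i ≠ z ^ j := fun i j hi hj hij h =>
    hij (hz.pow_inj hi hj h)
  have h10 : z - 1 ≠ 0 := sub_ne_zero.2 (by simpa using hzz 1 0 (by norm_num) (by norm_num) (by norm_num))
  have h20 : z ^ 2 - 1 ≠ 0 := sub_ne_zero.2 (by simpa using hzz 2 0 (by norm_num) (by norm_num) (by norm_num))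
  have h30 : z ^ 3 - 1 ≠ 0 := sub_ne_zero.2 (by simpa using hzz 3 0 (by norm_num) (by norm_num) (by norm_num))
  have h40 : z ^ 4 - 1 ≠ 0 := sub_ne_zero.2 (by simpa using hzz 4 0 (by norm_num) (by norm_num) (by norm_num))
  have hinj : Function.Injective (Lmap z r m) := by
    rw [← LinearMap.ker_eq_bot, LinearMap.ker_eq_bot']
    intro v hv
    rw [Lmap_apply] at hv
    have e0 := congrFun hv 0
    have e1 := congrFun hv 1
    have e5 := congrFun hv 5
    simp only [Matrix.cons_val_zero, Matrix.cons_val_one, Matrix.cons_val, Pi.zero_apply] at e0 e1 e5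
    have f1 : v 1 = 0 := by simpa [hm0, hr0] using e5
    have f2 : v 0 = v 2 := by linear_combination e0 - f1
    have f3 : v 2 = 0 := by
      have : (z * (z ^ 3 - 1)) * v 2 = 0 := by
        linear_combination -e1 + f1 + z * f2
      exact (mul_eq_zero.1 this).resolve_left (mul_ne_zero hz0 h30)
    funext i
    fin_cases i
    · show v 0 = 0
      rw [f2, f3]
    · exact f1
    · exact f3
  let e : (Fin 3 → ℂ) ≃ₗ[ℂ] LinearMap.range (Lmap z r m) := LinearEquiv.ofInjective _ hinj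
  have he : ∀ v, ((e v : LinearMap.range (Lmap z r m)) : Fin 6 → ℂ) = Lmap z r m v := fun v => rfl
  let K : Conic :=
    { plane := LinearMap.range (Lmap z r m)
      finrank_plane := by
        rw [← e.finrank_eq]
        simp
      form := stdForm.comp e.symm.toLinearMap
      nondegenerate := by
        intro v hv
        have h : e.symm v = 0 := by
          apply stdForm_nondeg
          intro w
          have := hv (e w)
          simpa [QuadraticMap.polar] using this
        simpa using h }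
  have hcone : ∀ v : Fin 3 → ℂ, v 1 * v 1 - v 0 * v 2 = 0 → Lmap z r m v ∈ K.cone := by
    intro v hv
    refine ⟨e v, ?_, rfl⟩
    show stdForm (e.symm (e v)) = 0
    rw [e.symm_apply_apply, stdForm_apply, hv]
  refine ⟨K, ?_, ?_⟩
  · rintro x ⟨v, hv, rfl⟩
    obtain ⟨w, rfl⟩ := e.surjective v
    have hv' : stdForm (e.symm (e w)) = 0 := hv
    rw [e.symm_apply_apply, stdForm_apply] at hv'
    rw [he]
    exact identity14 z r m hz hr hm w (by linear_combination hv')
  · rintro ⟨i, j, hij, a, b, hab, hx⟩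
    -- the coefficients of the forms
    let l : Fin 6 → ℂ := ![1, 1, 1, m, m, m]
    let al : Fin 6 → ℂ := ![1, z, z ^ 2, z ^ 3, z ^ 4, 0]
    let be : Fin 6 → ℂ := ![1, 1, 1, 1, 1, r]
    have hl : ∀ i, l i ≠ 0 := by
      intro i
      fin_cases i <;> simp [l, hm0]
    have hbe : ∀ i, be i ≠ 0 := by
      intro i
      fin_cases i <;> simp [be, hr0]
    have hmin : ∀ i j, i ≠ j → al i * be j - al j * be i ≠ 0 := by
      have hlt : ∀ i j : Fin 6, i < j → al i * be j - al j * be i ≠ 0 := by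
        intro i j hij
        fin_cases i <;> fin_cases j <;>
          first
          | (exfalso; revert hij; decide)
          | skip
        · show (1 : ℂ) * 1 - z * 1 ≠ 0
          intro h; apply h10; linear_combination -h
        · show (1 : ℂ) * 1 - z ^ 2 * 1 ≠ 0
          intro h; apply h20; linear_combination -h
        · show (1 : ℂ) * 1 - z ^ 3 * 1 ≠ 0
          intro h; apply h30; linear_combination -h
        · show (1 : ℂ) * 1 - z ^ 4 * 1 ≠ 0
          intro h; apply h40; linear_combination -h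
        · show (1 : ℂ) * r - 0 * 1 ≠ 0
          simpa using hr0
        · show z * 1 - z ^ 2 * 1 ≠ 0
          intro h; apply mul_ne_zero hz0 h10; linear_combination -h
        · show z * 1 - z ^ 3 * 1 ≠ 0
          intro h; apply mul_ne_zero hz0 h20; linear_combination -h
        · show z * 1 - z ^ 4 * 1 ≠ 0
          intro h; apply mul_ne_zero hz0 h30; linear_combination -h
        · show z * r - 0 * 1 ≠ 0
          simpa using ⟨hz0, hr0⟩
        · show z ^ 2 * 1 - z ^ 3 * 1 ≠ 0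
          intro h; apply mul_ne_zero (pow_ne_zero 2 hz0) h10; linear_combination -h
        · show z ^ 2 * 1 - z ^ 4 * 1 ≠ 0
          intro h; apply mul_ne_zero (pow_ne_zero 2 hz0) h20; linear_combination -h
        · show z ^ 2 * r - 0 * 1 ≠ 0
          simpa using ⟨hz0, hr0⟩
        · show z ^ 3 * 1 - z ^ 4 * 1 ≠ 0
          intro h; apply mul_ne_zero (pow_ne_zero 3 hz0) h10; linear_combination -h
        · show z ^ 3 * r - 0 * 1 ≠ 0
          simpa using ⟨hz0, hr0⟩
        · show z ^ 4 * r - 0 * 1 ≠ 0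
          simpa using ⟨hz0, hr0⟩
      intro i j hij
      rcases lt_or_gt_of_ne hij with h | h
      · exact hlt i j h
      · intro h0
        exact hlt j i h (by linear_combination -h0)
    -- points of the conic
    have p1 := hcone ![1, 0, 0] (by simp)
    have p2 := hcone ![1, 1, 1] (by simp)
    have p3 := hcone ![1, -1, 1] (by simp)
    have q1 : ∀ i, (Lmap z r m ![1, 0, 0]) i = l i * al i := by
      intro i
      rw [Lmap_apply]
      fin_cases i <;> simp [l, al]
    have q2 : ∀ i, (Lmap z r m ![1, 1, 1]) i - (Lmap z r m ![1, -1, 1]) i = 2 * (l i * be i) := by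
      intro i
      rw [Lmap_apply, Lmap_apply]
      fin_cases i <;> simp [l, be] <;> ring
    have r1 := hx _ p1
    rw [q1, q1] at r1
    have r2 : a * (l i * be i) - b * (l j * be j) = 0 := by
      have s2 := hx _ p2
      have s3 := hx _ p3
      have t1 := q2 i
      have t2 := q2 j
      linear_combination (s2 - s3) / 2 - a / 2 * t1 + b / 2 * t2
    have ha : a = 0 := by
      have : a * (l i * (al i * be j - al j * be i)) = 0 := by
        linear_combination be j * r1 - al j * r2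
      exact (mul_eq_zero.1 this).resolve_right (mul_ne_zero (hl i) (hmin i j hij))
    have hb : b = 0 := by
      rw [ha] at r2
      have : b * (l j * be j) = 0 := by linear_combination -r2
      exact (mul_eq_zero.1 this).resolve_right (mul_ne_zero (hl j) (hbe j))
    rcases hab with h | h
    · exact h ha
    · exact h hb

/-- **The least threshold `d_0` is `15`**: for every `d ≥ 15` every conic contained in `X_d` is
degenerate, and `15` is the least positive integer with this property (`X_14` contains a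
nondegenerate conic). -/
theorem result : IsLeast {n : ℕ | 0 < n ∧ ∀ d : ℕ, n ≤ d → ∀ K : Conic,
    K.ContainedIn d → K.Degenerate} 15 := by
  refine ⟨⟨by norm_num, fun d hd K hK => conic_upper d hd K hK⟩, ?_⟩
  rintro n ⟨-, hn⟩
  by_contra hlt
  obtain ⟨K, h1, h2⟩ := exists_conic14
  exact h2 (hn 14 (by omega) K h1)

end Pool.Agent.Results.MP_cd75ba_ag.LeastThresholdFifteen
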